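import Pool.Agent.Lib.MP_82ec8b_co.LG.Main

/-!
# Perfect binary arrays `PBA(s,t)` with `gcd(s,t) ≤ m^δ`, `δ < 1`: most odd `m`, and always a
positive proportion of them, have none

`st = 4 · 2^(2a) · 3^(2b) · m⁴`, `m` odd, `(2^a 3^b)^16 gcd(s,t) ≤ m^δ`: the number of the odd `m ≤ x`
for which such an array exists is at most `min(C δ^κ, 1/2 - c (1 - δ)) x`, for every `κ < 1/2`.
-/

set_option autoImplicit false

namespace Pool.Agent.Results.MP_82ec8b_co.LargeGcd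

/-- `s, t ≥ 1` and there is a perfect binary array `PBA(s,t)`: a `±1`-valued function on `Z_s × Z_t` all
of whose autocorrelations at nonzero shifts vanish. -/
def HasPBA (s t : ℕ) : Prop :=
  ∃ (_ : NeZero s) (_ : NeZero t), ∃ A : ZMod s → ZMod t → ℤ,
    (∀ i j, A i j = 1 ∨ A i j = -1) ∧
      ∀ u v, (u ≠ 0 ∨ v ≠ 0) → ∑ i, ∑ j, A i j * A (i + u) (j + v) = 0

/-- For every `κ < 1/2` there are `C` and `c > 0` such that for every `δ` in `(0, 1)` and all large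
`x` the number of odd `m ≤ x` for which there are `a, b, s, t` with
`st = 4 · 2^(2a) · 3^(2b) · m⁴`, `(2^a 3^b)^16 gcd(s,t) ≤ m^δ` and a perfect binary array `PBA(s,t)` is
at most `min(C δ^κ, 1/2 - c (1 - δ)) x`. -/
theorem result (κ : ℝ) (hκ0 : 0 < κ) (hκ : κ < 1 / 2) :
    ∃ C c : ℝ, 0 < c ∧ ∀ δ : ℝ, 0 < δ → δ < 1 → ∃ x0 : ℕ, ∀ x : ℕ, x0 ≤ x →
      (({m : ℕ | m % 2 = 1 ∧ m ≤ x ∧ ∃ a b s t : ℕ,
        s * t = 4 * 2 ^ (2 * a) * 3 ^ (2 * b) * m ^ 4 ∧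
        (((2 ^ a * 3 ^ b) ^ 16 * Nat.gcd s t : ℕ) : ℝ) ≤ (m : ℝ) ^ δ ∧
        HasPBA s t}.ncard : ℕ) : ℝ) ≤ min (C * δ ^ κ) (1 / 2 - c * (1 - δ)) * x :=
  Pool.Agent.Lib.MP_82ec8b_co.LG.main κ hκ0 hκ

end Pool.Agent.Results.MP_82ec8b_co.LargeGcd
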