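import Pool.Agent.Lib.MP_82ec8b_co.SC.Tower

/-!
# Perfect binary arrays and a self-conjugate prime

Let `p` be an odd prime, `s` and `t` divisors of `p ^ x + 1`, and `a + b ≥ 1`. If there is a perfect
binary array of size `s p^a × t p^b`, then `a = b`, there is one of size `s × t`, `p + 1` divides `s t`,
and if `p ≥ 5` then `s t ≥ (p + 1) (p + 2)`.
-/

namespace Pool.Agent.Results.MP_82ec8b_co.SelfConjugatePrime

open Finset

/-- `s, t ≥ 1` and there is a perfect binary array `PBA(s,t)`: a `±1`-valued function on `Z_s × Z_t` all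
of whose autocorrelations at nonzero shifts vanish. -/
def HasPBA (s t : ℕ) : Prop :=
  ∃ (_ : NeZero s) (_ : NeZero t), ∃ A : ZMod s → ZMod t → ℤ,
    (∀ i j, A i j = 1 ∨ A i j = -1) ∧
      ∀ u v, (u ≠ 0 ∨ v ≠ 0) → ∑ i, ∑ j, A i j * A (i + u) (j + v) = 0

theorem result (p s t a b x : ℕ) (hp : p.Prime) (hp2 : p ≠ 2) (hab : 1 ≤ a + b)
    (hs : s ∣ p ^ x + 1) (ht : t ∣ p ^ x + 1) (h : HasPBA (s * p ^ a) (t * p ^ b)) :
    a = b ∧ HasPBA s t ∧ (p + 1) ∣ s * t ∧ (5 ≤ p → (p + 1) * (p + 2) ≤ s * t) :=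
  MP82.SC.mainH p s t a b x hp hp2 hab hs ht h

/-- Corollary (repeated use of `result`): several primes, each self-conjugate modulo what comes before it.
If every odd prime `q` dividing `s t` is self-conjugate modulo the `q`-free part of `lcm(s,t)`, then (put a
prime `≥ 5` first) a perfect binary array exists only for `s = 2^i 3^c`, `t = 2^j 3^c`. -/
theorem tower (i j r : ℕ) (q a b : ℕ → ℕ) (hq : ∀ k < r, (q k).Prime ∧ q k ≠ 2)
    (hsc : ∀ k < r, ∃ x : ℕ, (2 ^ i * ∏ l ∈ range k, q l ^ a l) ∣ q k ^ x + 1 ∧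
      (2 ^ j * ∏ l ∈ range k, q l ^ b l) ∣ q k ^ x + 1)
    (h : HasPBA (2 ^ i * ∏ l ∈ range r, q l ^ a l) (2 ^ j * ∏ l ∈ range r, q l ^ b l)) :
    (∀ k < r, a k = b k) ∧ (0 < r → q 0 = 3 ∨ a 0 = 0) :=
  MP82.SC.tower i j q a b r hq hsc h

end Pool.Agent.Results.MP_82ec8b_co.SelfConjugatePrime
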