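import Pool.Agent.Lib.MP_82ec8b_co.G.All

/-!
# Perfect binary arrays of size `2^i 3^k × 2^j 3^l`

If such an array exists, then `k = l` and `|i - j|` is `0` or `2`, or else
`i = j ≥ 4` and `|k - l| = 2`.
-/

namespace Pool.Agent.Results.MP_82ec8b_co.TwoThreeSizes

open Finset

/-- A perfect binary array `PBA(s,t)`: a `±1`-valued function on `Z_s × Z_t` all of whose
autocorrelations at nonzero shifts vanish. -/
def IsPBA (s t : ℕ) [NeZero s] [NeZero t] (a : ZMod s → ZMod t → ℤ) : Prop :=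
  (∀ i j, a i j = 1 ∨ a i j = -1) ∧
  ∀ u v, (u ≠ 0 ∨ v ≠ 0) → ∑ i, ∑ j, a i j * a (i + u) (j + v) = 0

theorem result (i j k l : ℕ) (a : ZMod (2 ^ i * 3 ^ k) → ZMod (2 ^ j * 3 ^ l) → ℤ)
    (ha : IsPBA (2 ^ i * 3 ^ k) (2 ^ j * 3 ^ l) a) :
    (k = l ∧ (i = j ∨ i = j + 2 ∨ j = i + 2)) ∨
      (4 ≤ i ∧ i = j ∧ (k = l + 2 ∨ l = k + 2)) :=
  MP82.G.all i j k l a ha

end Pool.Agent.Results.MP_82ec8b_co.TwoThreeSizes
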